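import Mathlib
import Pool.Agent.W511.UlmerP2c

set_option autoImplicit false

/-!
# Rational curves of unbounded canonical degree on blow-ups of the projective plane

Every finite set of points of the complex projective plane is contained in a finite set `S` such that
the smooth projective rational surface `X` obtained by blowing up `S` contains rational curves
`C 0, C 1, ...` with `K_X . C n → ∞`.
-/

open Filter

namespace Pool.Agent.Results.MP_f8080c_ag.UnboundedOnBlowupsOfPlane

open Pool.Agent.W511.Ulmer

theorem result (S₀ : Finset (Projectivization ℂ (Fin 3 → ℂ))) :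
    ∃ S : Finset (Projectivization ℂ (Fin 3 → ℂ)), S₀ ⊆ S ∧
      ∃ K : ℕ → RationalCurve, Tendsto (fun n => (K n).canonicalDegree S) atTop atTop := by
  obtain ⟨S, hS, h⟩ := final S₀
  choose K hK using h
  refine ⟨S, hS, K, ?_⟩
  exact tendsto_atTop_mono hK tendsto_natCast_atTop_atTop

end Pool.Agent.Results.MP_f8080c_ag.UnboundedOnBlowupsOfPlane
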